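import Pool.Agent.Lib_helper89.CE.Final

set_option autoImplicit false

namespace Pool.Agent.Results.MP_85e36e_co.CubicExponents

/-- **Q1 for every even `n` and all decimations of binary weight at most three.**  Let `n > 0` be
even and let `d` be coprime to `2 ^ n - 1`, where `d`, or an inverse of `d` modulo `2 ^ n - 1`, is
congruent to a sum `2 ^ a + 2 ^ b + 2 ^ c` of three powers of two (equal exponents are allowed).  If
the crosscorrelation sums `C_d(c) = ∑_{x ≠ 0} (-1) ^ Tr (c x - x ^ d)`, `c ≠ 0`, over `GF(2 ^ n)`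
take exactly three values, then `d` is equivalent to a member of one of the families (i) - (iv). -/
theorem result (n : ℕ) (hn : 0 < n) (hn2 : Even n) (d : ℕ) (hd : Nat.Coprime d (2 ^ n - 1))
    (a b c : ℕ) (hw : d ≡ 2 ^ a + 2 ^ b + 2 ^ c [MOD 2 ^ n - 1] ∨
      d * (2 ^ a + 2 ^ b + 2 ^ c) ≡ 1 [MOD 2 ^ n - 1])
    (h3 : Set.ncard {v : ℤ | ∃ c : GaloisField 2 n, c ≠ 0 ∧
        v = ∑ᶠ x ∈ {x : GaloisField 2 n | x ≠ 0},
          (-1 : ℤ) ^ (Algebra.trace (ZMod 2) (GaloisField 2 n) (c * x - x ^ d)).val} = 3) :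
    ∃ e i : ℕ,
        (d ≡ 2 ^ i * e [MOD 2 ^ n - 1] ∨ d * e ≡ 2 ^ i [MOD 2 ^ n - 1]) ∧
        ((∃ k : ℕ, 0 < k ∧ Odd (n / Nat.gcd k n) ∧ e = 2 ^ k + 1) ∨
         (∃ k : ℕ, 0 < k ∧ Odd (n / Nat.gcd k n) ∧ e = 2 ^ (2 * k) - 2 ^ k + 1) ∨
         (n % 4 = 2 ∧ e = 2 ^ (n / 2) + 2 ^ ((n + 2) / 4) + 1) ∨
         (n % 4 = 2 ∧ e = 2 ^ ((n + 2) / 2) + 3)) :=
  Pool.Agent.CE.final n hn hn2 d hd a b c hw h3

end Pool.Agent.Results.MP_85e36e_co.CubicExponents
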