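import Pool.Agent.Lib_helper89.AD.Fin

set_option autoImplicit false

namespace Pool.Agent.Results.MP_85e36e_co.ExponentiallyFew

/-- **Exponentially few decimations are three-valued.**  There are `κ > 0` and `n₀` such that for
every `n ≥ n₀`, among the `φ(2 ^ n - 1)` decimations modulo `2 ^ n - 1`

* at most `2 ^ (-κ n) * φ(2 ^ n - 1)` are three-valued, and
* for at most `2 ^ (-κ n) * φ(2 ^ n - 1)` of them all the numbers `1 + C_d(c)`, `c ≠ 0`, are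
  divisible by `2 ^ ⌊0.499 n⌋`,

where `C_d(c) = ∑_{x ≠ 0} (-1) ^ Tr (c x - x ^ d)` is the crosscorrelation sum over `GF(2 ^ n)`. -/
theorem result : ∃ κ : ℝ, 0 < κ ∧ ∃ n₀ : ℕ, ∀ n : ℕ, n₀ ≤ n →
    (Set.ncard {d : ℕ | d < 2 ^ n - 1 ∧ Nat.Coprime d (2 ^ n - 1) ∧
        Set.ncard {v : ℤ | ∃ c : GaloisField 2 n, c ≠ 0 ∧
          v = ∑ᶠ x ∈ {x : GaloisField 2 n | x ≠ 0},
            (-1 : ℤ) ^ (Algebra.trace (ZMod 2) (GaloisField 2 n) (c * x - x ^ d)).val} = 3} : ℝ) ≤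
      (2 : ℝ) ^ (-κ * n) * Nat.totient (2 ^ n - 1) ∧
    (Set.ncard {d : ℕ | d < 2 ^ n - 1 ∧ Nat.Coprime d (2 ^ n - 1) ∧
        ∀ c : GaloisField 2 n, c ≠ 0 → (2 : ℤ) ^ (499 * n / 1000) ∣
          1 + ∑ᶠ x ∈ {x : GaloisField 2 n | x ≠ 0},
            (-1 : ℤ) ^ (Algebra.trace (ZMod 2) (GaloisField 2 n) (c * x - x ^ d)).val} : ℝ) ≤
      (2 : ℝ) ^ (-κ * n) * Nat.totient (2 ^ n - 1) :=
  Pool.Agent.AD.final

end Pool.Agent.Results.MP_85e36e_co.ExponentiallyFew
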