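import Pool.Agent.Lib_helper65.TVC.Final

set_option autoImplicit false

namespace Pool.Agent.Results.MP_85e36e_co.ThreeTimesPow2

/-- **Q1 for every `n = 3 * 2 ^ a`.**  Let `n = 3 * 2 ^ a` (`a ≥ 0`) and let `d` be coprime to
`2 ^ n - 1`.  If the crosscorrelation sums `C_d(c) = ∑_{x ≠ 0} (-1) ^ Tr (c x - x ^ d)`,
`c ≠ 0`, over `GF(2 ^ n)` take exactly three values, then `d` is equivalent to the Gold exponent
`2 ^ (2 ^ a) + 1` of family (i) (`k = 2 ^ a`, `n / gcd (k, n) = 3`). -/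
theorem result (a d : ℕ) (hd : Nat.Coprime d (2 ^ (3 * 2 ^ a) - 1))
    (h3 : Set.ncard {v : ℤ | ∃ c : GaloisField 2 (3 * 2 ^ a), c ≠ 0 ∧
        v = ∑ᶠ x ∈ {x : GaloisField 2 (3 * 2 ^ a) | x ≠ 0},
          (-1 : ℤ) ^ (Algebra.trace (ZMod 2) (GaloisField 2 (3 * 2 ^ a)) (c * x - x ^ d)).val} = 3) :
    ∃ i : ℕ, d ≡ 2 ^ i * (2 ^ 2 ^ a + 1) [MOD 2 ^ (3 * 2 ^ a) - 1] ∨
      d * (2 ^ 2 ^ a + 1) ≡ 2 ^ i [MOD 2 ^ (3 * 2 ^ a) - 1] :=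
  Pool.Agent.TV.final a d hd h3

end Pool.Agent.Results.MP_85e36e_co.ThreeTimesPow2
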